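import Pool.Agent.TH485.Uni.Main
import Pool.Agent.H369R2.TD.Asy

/-!
The numerical constants for the asymptotic bound for `T(n, t+1, t)`: determinant codes with the
rate `27 / 4` and the small Turán densities of `Pool.Agent.TH485`.
-/

set_option autoImplicit false

open Finset Filter

namespace Pool.Agent.U429.Tur

open Pool.Agent.H369R2.TD Pool.Agent.TH485.Uni

/-- the constants `j * t(j, j-1)` -/
noncomputable def cc (j : ℕ) : ℝ := (g j : ℝ) / 100000

theorem cc_zero : cc 0 = 0 := by
  unfold cc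
  rw [g_zero]
  norm_num

theorem dn_cc (m : ℕ) : ((m : ℝ) + 1) * dn m = cc (m + 1) := by
  unfold dn cc
  have : (0 : ℝ) < (m : ℝ) + 1 := by positivity
  field_simp

theorem g_le_K : ∀ j : ℕ, j < 64 → g j ≤ 263000 := by decide

theorem cc_le (j : ℕ) : cc j ≤ 263 / 100 := by
  have h : g j ≤ 263000 := by
    by_cases hj : j < 64
    · exact g_le_K j hj
    · rw [g_big (by omega)]
      norm_num
  have h' : (g j : ℝ) ≤ 263000 := by exact_mod_cast h
  unfold cc
  rw [div_le_div_iff₀ (by norm_num) (by norm_num)]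
  linarith

theorem exp_up : Real.exp (27 / 4) < 8540588 / 10000 := by
  have h1 : Real.exp (27 / 4) ^ 4 = Real.exp 1 ^ 27 := by
    rw [← Real.exp_nat_mul, ← Real.exp_nat_mul]; norm_num
  have h2 := Real.exp_one_lt_d9
  refine lt_of_pow_lt_pow_left₀ 4 (by norm_num) ?_
  rw [h1]
  calc Real.exp 1 ^ 27 < 2.7182818286 ^ 27 := by gcongr
    _ < _ := by norm_num

theorem exp_lo : 8540587 / 10000 < Real.exp (27 / 4) := by
  have h1 : Real.exp (27 / 4) ^ 4 = Real.exp 1 ^ 27 := by
    rw [← Real.exp_nat_mul, ← Real.exp_nat_mul]; norm_num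
  have h2 := Real.exp_one_gt_d9
  refine lt_of_pow_lt_pow_left₀ 4 (Real.exp_pos _).le ?_
  rw [h1]
  calc (8540587 / 10000 : ℝ) ^ 4 < 2.7182818283 ^ 27 := by norm_num
    _ < _ := by gcongr

theorem exp_small : Real.exp (1 / 40000) ≤ 40001 / 40000 + 1 / 1000000000 := by
  have := Real.exp_bound' (x := 1 / 40000) (by norm_num) (by norm_num) (n := 2) (by norm_num)
  refine this.trans ?_
  simp [Finset.sum_range_succ, Nat.factorial]
  norm_num

theorem psi_num :
    Real.exp (-(27 / 4)) * Psi 20 cc (263 / 100) (270001 / 40000) ≤ 17914 / 10000 := by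
  have hE : (0 : ℝ) < Real.exp (-(27 / 4)) := Real.exp_pos _
  have hlow : (10000 : ℝ) / 8540588 ≤ Real.exp (-(27 / 4)) := by
    rw [Real.exp_neg, ← one_div, div_le_div_iff₀ (by norm_num) (Real.exp_pos _)]
    have := exp_up
    linarith
  have hx : Real.exp (-(27 / 4)) * Real.exp (270001 / 40000) = Real.exp (1 / 40000) := by
    rw [← Real.exp_add]; norm_num
  have hS : ∑ j ∈ range 20, (cc j - 263 / 100) *
      ((270001 / 40000 : ℝ) ^ j / (j.factorial : ℝ)) ≤ - (71628 / 100) := by
    simp only [Finset.sum_range_succ, Finset.sum_range_zero, cc, g, cN]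
    norm_num [Nat.factorial]
  rw [Psi, mul_add]
  have h1 : Real.exp (-(27 / 4)) * (263 / 100 * Real.exp (270001 / 40000))
      = 263 / 100 * Real.exp (1 / 40000) := by
    rw [← hx]; ring
  rw [h1]
  have h2 := exp_small
  have h3 : Real.exp (-(27 / 4)) * ∑ j ∈ range 20, (cc j - 263 / 100) *
      ((270001 / 40000 : ℝ) ^ j / (j.factorial : ℝ)) ≤
        (10000 : ℝ) / 8540588 * (- (71628 / 100)) := by
    nlinarith
  linarith

/-- `(t + 1) t(t+1, t) ≤ 1.9185` for all large `t` -/
theorem tur_19185 : ∀ᶠ r : ℕ in atTop, Tur r ((19185 / 10000) / ((r : ℝ) + 1)) := by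
  have hP : Real.exp (-(27 / 4)) ≤ 117088 / 100000000 := by
    rw [Real.exp_neg, ← one_div, div_le_div_iff₀ (Real.exp_pos _) (by norm_num)]
    have := exp_lo
    linarith
  refine asymptotic (δ := dn) (c := cc) (J := 20) (K := 263 / 100) tur_dn dn_nonneg cc_zero
    (fun m _ => (dn_cc m).le) (fun m => (dn_cc m).le.trans (cc_le _)) (by norm_num)
    (y₁ := 27 / 4) (x₁ := 270001 / 40000) (y₂ := 27 / 4)
    (x₂ := 270001 / 40000) (lam := 9669 / 10000) (D₁ := 17914 / 10000) (D₂ := 17914 / 10000)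
    (P₁ := 117088 / 100000000) (P₂ := 117088 / 100000000)
    (by norm_num) (by norm_num) (by norm_num) (by norm_num) (by norm_num) (by norm_num)
    psi_num psi_num hP (by norm_num) hP (by norm_num) ?_
  norm_num

end Pool.Agent.U429.Tur
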